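import Mathlib
import Pool.Agent.H3.CMProof

set_option autoImplicit false

namespace Pool.Agent.Results.MP_ebd0f7_an.CentredMaximal

open Pool.Agent.H3.CM

/-- The set of admissible constants is a closed half-line `(-∞, c₁]`, and `1 / c₁` is the best
constant in the weak type (1,1) inequality for the centred Hardy–Littlewood maximal operator. -/
theorem result :
    ∃ c₁ : ℝ, 0 < c₁ ∧ (∀ c : ℝ, Admissible c ↔ c ≤ c₁) ∧
      IsLeast {C : ℝ | 0 < C ∧ WeakType C} c₁⁻¹ ∧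
      (IsLeast {C : ℝ | 0 < C ∧ WeakType C} ((11 + √61) / 12) → c₁ = (11 - √61) / 5) := by
  obtain ⟨h1, h2, h3⟩ := main
  refine ⟨c₁, h1, h2, h3, fun h4 => ?_⟩
  have h5 := h3.unique h4
  have h6 : c₁ = ((11 + √61) / 12)⁻¹ := by rw [← h5, inv_inv]
  rw [h6]
  have h7 : (√61 : ℝ) ^ 2 = 61 := Real.sq_sqrt (by norm_num)
  have h8 : (0:ℝ) ≤ √61 := Real.sqrt_nonneg _
  field_simp
  nlinarith

end Pool.Agent.Results.MP_ebd0f7_an.CentredMaximal
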